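import Pool.Agent.H99.HN.Targets
import Pool.Agent.H38.HM.FE

/-!
# Facts on `J` and `a`
-/

namespace Pool.Agent.H62.HN

open Pool.Agent.H99.HM Pool.Agent.H99.HN
open MeasureTheory Set Filter Topology Real

theorem inv_sq {t : ℝ} (ht : 0 < t) :
    IntegrableOn (fun τ => 1 / τ ^ 2) (Ioi t) ∧ ∫ τ in Ioi t, 1 / τ ^ 2 = 1 / t := by
  have h := Pool.Agent.H38.HM.int_inv_sq (x := 0) (t := t) (by linarith)
  simpa using h

theorem ext_facts {s s1 : ℝ → ℝ} (h : Ext 0 0 s s1) : ExtFacts 0 0 s s1 :=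
  Pool.Agent.H38.HM.facts 0 0 s s1 h

theorem tau_cont {s s1 : ℝ → ℝ} (h : Ext 0 0 s s1) :
    ContinuousOn (fun t => (Mf s - Sf s t) / t ^ 2) (Ioi 0) := by
  have F := ext_facts h
  apply ContinuousOn.div (continuousOn_const.sub (F.Scont.mono Ioi_subset_Ici_self)) (by fun_prop)
  intro t ht
  have : (0 : ℝ) < t := ht
  positivity

theorem tau_int {s s1 : ℝ → ℝ} (h : Ext 0 0 s s1) {r : ℝ} (hr : 0 < r) :
    IntegrableOn (fun t => (Mf s - Sf s t) / t ^ 2) (Ioi r) := by
  have F := ext_facts h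
  apply Integrable.mono' ((inv_sq hr).1.const_mul (Mf s))
  · exact ((tau_cont h).mono (Ioi_subset_Ioi hr.le)).aestronglyMeasurable measurableSet_Ioi
  · rw [ae_restrict_iff' measurableSet_Ioi]
    refine Filter.Eventually.of_forall fun t ht => ?_
    have ht0 : 0 < t := hr.trans ht
    have h1 := F.Spos t ht0
    have h2 := F.Slt t ht0.le
    rw [Real.norm_eq_abs, abs_div, abs_of_nonneg (sq_nonneg t), abs_of_pos (by linarith),
      mul_one_div]
    apply div_le_div_of_nonneg_right _ (sq_nonneg _)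
    linarith

theorem a_cont {s s1 : ℝ → ℝ} (h : Ext 0 0 s s1) :
    ContinuousOn (fun t => 2 * Sf s t / (4 * π * s t ^ 2)) (Ioi 0) := by
  have F := ext_facts h
  apply ContinuousOn.div (continuousOn_const.mul (F.Scont.mono Ioi_subset_Ici_self))
    (continuousOn_const.mul ((F.contS.mono Ioi_subset_Ici_self).pow 2))
  intro t ht
  have : (0 : ℝ) < s t := h.pos t ht
  show 4 * π * s t ^ 2 ≠ 0
  positivity

theorem a_pos {s s1 : ℝ → ℝ} (h : Ext 0 0 s s1) {t : ℝ} (ht : 0 < t) :
    0 < 2 * Sf s t / (4 * π * s t ^ 2) := by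
  have F := ext_facts h
  have h1 := F.Spos t ht
  have h2 := h.pos t ht
  positivity

theorem a_near {s s1 : ℝ → ℝ} (h : Ext 0 0 s s1) :
    ∃ C, 0 ≤ C ∧ ∀ r ∈ Ioc (0 : ℝ) 1, 2 * Sf s r / (4 * π * s r ^ 2) ≤ C * r := by
  have F := ext_facts h
  obtain ⟨c, C, hc, hC, hb⟩ := F.near0
  refine ⟨2 * C / (4 * π * c ^ 2), by positivity, fun r hr => ?_⟩
  obtain ⟨h1, -, -, h4⟩ := hb r ⟨hr.1.le, hr.2⟩
  have hr0 := hr.1
  have hs := h.pos r hr0
  rw [div_le_iff₀ (by positivity)]
  have h5 : (c * r) ^ 2 ≤ s r ^ 2 := pow_le_pow_left₀ (by positivity) h1 2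
  calc 2 * Sf s r ≤ 2 * (C * r ^ 3) := by linarith
    _ = 2 * C / (4 * π * c ^ 2) * r * (4 * π * (c * r) ^ 2) := by field_simp
    _ ≤ 2 * C / (4 * π * c ^ 2) * r * (4 * π * s r ^ 2) := by
      apply mul_le_mul_of_nonneg_left _ (by positivity)
      apply mul_le_mul_of_nonneg_left h5 (by positivity)

theorem a_int {s s1 : ℝ → ℝ} (h : Ext 0 0 s s1) {r : ℝ} (hr : 0 ≤ r) :
    IntervalIntegrable (fun t => 2 * Sf s t / (4 * π * s t ^ 2)) volume 0 r := by
  obtain ⟨C, hC, hb⟩ := a_near h
  rw [intervalIntegrable_iff_integrableOn_Ioc_of_le hr]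
  have h1 : IntegrableOn (fun t => 2 * Sf s t / (4 * π * s t ^ 2)) (Ioc 0 1) := by
    have hfin : IntegrableOn (fun t : ℝ => C * t) (Ioc 0 1) :=
      (Continuous.integrableOn_Ioc (by fun_prop))
    apply Integrable.mono' hfin
    · exact ((a_cont h).mono Ioc_subset_Ioi_self).aestronglyMeasurable measurableSet_Ioc
    · rw [ae_restrict_iff' measurableSet_Ioc]
      refine Filter.Eventually.of_forall fun t ht => ?_
      rw [Real.norm_eq_abs, abs_of_pos (a_pos h ht.1)]
      exact hb t ht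
  have h2 : IntegrableOn (fun t => 2 * Sf s t / (4 * π * s t ^ 2)) (Icc 1 (max 1 r)) :=
    ((a_cont h).mono (fun t ht => lt_of_lt_of_le one_pos ht.1)).integrableOn_Icc
  apply (h1.union h2).mono_set
  intro t ht
  rcases le_total t 1 with h3 | h3
  · exact Or.inl ⟨ht.1, h3⟩
  · exact Or.inr ⟨h3, ht.2.trans (le_max_right _ _)⟩

theorem J_der {s s1 : ℝ → ℝ} (h : Ext 0 0 s s1) {t : ℝ} (ht : 0 < t) :
    HasDerivAt (Jf s) (-((Mf s - Sf s t) / t ^ 2)) t := by
  have ht2 : 0 < t / 2 := by linarith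
  have h1 : HasDerivAt (fun u => Jf s (t / 2) -
      ∫ τ in (t / 2)..u, (Mf s - Sf s τ) / τ ^ 2) (-((Mf s - Sf s t) / t ^ 2)) t := by
    apply HasDerivAt.const_sub
    apply intervalIntegral.integral_hasDerivAt_right
    · rw [intervalIntegrable_iff_integrableOn_Ioc_of_le (by linarith)]
      exact (tau_int h ht2).mono_set Ioc_subset_Ioi_self
    · exact (tau_cont h).stronglyMeasurableAtFilter isOpen_Ioi t ht
    · exact (tau_cont h).continuousAt (Ioi_mem_nhds ht)
  apply h1.congr_of_eventuallyEq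
  filter_upwards [Ioi_mem_nhds (show t / 2 < t by linarith)] with u hu
  unfold Jf
  have h3 := intervalIntegral.integral_Ioi_sub_Ioi (tau_int h ht2) (le_of_lt hu)
  rw [← h3]
  ring

/-- facts on `J` and `a` -/
theorem ja : T_ja := by
  intro s s1 h
  have F := ext_facts h
  refine ⟨fun r hr => tau_int h hr, fun r hr => J_der h hr, fun r hr => ⟨?_, ?_⟩, ?_, ?_, ?_, ?_,
    ?_⟩
  · unfold Jf
    rw [setIntegral_pos_iff_support_of_nonneg_ae _ (tau_int h hr)]
    · have hsub : Ioi r ⊆ (Function.support fun t => (Mf s - Sf s t) / t ^ 2) ∩ Ioi r := by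
        intro t ht
        have ht0 : 0 < t := hr.trans ht
        refine ⟨?_, ht⟩
        rw [Function.mem_support]
        have h2 := F.Slt t ht0.le
        have : 0 < (Mf s - Sf s t) / t ^ 2 := div_pos (by linarith) (by positivity)
        exact this.ne'
      exact lt_of_lt_of_le (by simp) (measure_mono hsub)
    · rw [EventuallyLE, ae_restrict_iff' measurableSet_Ioi]
      refine Filter.Eventually.of_forall fun t ht => ?_
      have ht0 : 0 < t := hr.trans ht
      have h2 := F.Slt t ht0.le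
      exact div_nonneg (by linarith) (sq_nonneg _)
  · unfold Jf
    have h1 := (inv_sq hr).1.const_mul (Mf s - Sf s r)
    have h2 : ∫ t in Ioi r, (Mf s - Sf s t) / t ^ 2 ≤
        ∫ t in Ioi r, (Mf s - Sf s r) * (1 / t ^ 2) := by
      apply setIntegral_mono_on (tau_int h hr) h1 measurableSet_Ioi
      intro t ht
      have ht0 : 0 < t := hr.trans ht
      rw [mul_one_div]
      apply div_le_div_of_nonneg_right _ (sq_nonneg _)
      have := F.Smono.monotoneOn (mem_Ici.2 hr.le) (mem_Ici.2 ht0.le) (le_of_lt ht)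
      linarith
    refine h2.trans ?_
    rw [integral_const_mul, (inv_sq hr).2, mul_one_div]
  · intro r hr
    unfold af
    apply intervalIntegral.integral_hasDerivAt_right (a_int h hr.le)
    · exact (a_cont h).stronglyMeasurableAtFilter isOpen_Ioi r hr
    · exact (a_cont h).continuousAt (Ioi_mem_nhds hr)
  · intro r hr
    have hr0 : (0 : ℝ) ≤ r := hr
    have h2 := intervalIntegral.continuousOn_primitive_interval' (a := 0) (μ := volume)
      (a_int h (show (0 : ℝ) ≤ r + 1 by linarith)) (by simp)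
    rw [uIcc_of_le (by linarith)] at h2
    have h3 := h2 r ⟨hr0, by linarith⟩
    apply h3.mono_of_mem_nhdsWithin
    rw [mem_nhdsWithin]
    exact ⟨Iio (r + 1), isOpen_Iio, by simp, fun t ht => ⟨ht.2, le_of_lt ht.1⟩⟩
  · intro r hr
    unfold af
    apply intervalIntegral.intervalIntegral_pos_of_pos_on (a_int h hr.le) _ hr
    intro t ht
    exact a_pos h ht.1
  · obtain ⟨C, -, hC⟩ := a_near h
    exact ⟨C, hC⟩
  · intro t r ht htr
    unfold Jf Lam
    have h3 := intervalIntegral.integral_Ioi_sub_Ioi (tau_int h ht) htr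
    rw [h3]
    have hne : ∀ x ∈ uIcc t r, x ≠ 0 := by
      intro x hx
      rw [uIcc_of_le htr] at hx
      have := ht.trans_le hx.1
      exact this.ne'
    have i1 : IntervalIntegrable (fun σ => Mf s * (1 / σ ^ 2)) volume t r := by
      apply ContinuousOn.intervalIntegrable
      apply continuousOn_const.mul
      apply ContinuousOn.div continuousOn_const (by fun_prop)
      intro x hx
      exact pow_ne_zero 2 (hne x hx)
    have i2 : IntervalIntegrable (fun σ => Sf s σ / σ ^ 2) volume t r := by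
      apply ContinuousOn.intervalIntegrable
      apply ContinuousOn.div _ (by fun_prop)
      · intro x hx
        exact pow_ne_zero 2 (hne x hx)
      · apply F.Scont.mono
        intro x hx
        rw [uIcc_of_le htr] at hx
        exact (ht.trans_le hx.1).le
    have e : (fun σ => (Mf s - Sf s σ) / σ ^ 2) =
        fun σ => Mf s * (1 / σ ^ 2) - Sf s σ / σ ^ 2 := by
      funext σ; ring
    rw [e, intervalIntegral.integral_sub i1 i2, intervalIntegral.integral_const_mul]
    congr 2
    have h4 := intervalIntegral.integral_Ioi_sub_Ioi (inv_sq ht).1 htr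
    rw [← h4, (inv_sq ht).2, (inv_sq (ht.trans_le htr)).2]

end Pool.Agent.H62.HN
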