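import Pool.Agent.H62.HN.Ja

/-!
# Facts on the kernel
-/

namespace Pool.Agent.H62.HN

open Pool.Agent.H99.HM Pool.Agent.H99.HN
open MeasureTheory Set Filter Topology Real

theorem kf_le {s : ℝ → ℝ} {r t : ℝ} (h : r ≤ t) : kf s r t = Sf s r * Jf s t / Mf s := by
  unfold kf
  rw [if_neg (not_lt.mpr h), sub_zero]

theorem kf_ge {s s1 : ℝ → ℝ} (h : Ext 0 0 s s1) {r t : ℝ} (ht : 0 < t) (htr : t ≤ r) :
    kf s r t = Sf s r * Jf s t / Mf s - Sf s r * (1 / t - 1 / r) + Mf s * (1 / t - 1 / r)
      - Jf s t + Jf s r := by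
  have hl := (ja s s1 h).2.2.2.2.2.2.2 t r ht htr
  rcases eq_or_lt_of_le htr with h1 | h1
  · rw [kf_le h1.ge, h1]
    ring
  · unfold kf
    rw [if_pos h1]
    linarith

theorem lam_nn {s s1 : ℝ → ℝ} (h : Ext 0 0 s s1) {r t : ℝ} (ht : 0 < t) (htr : t ≤ r) :
    0 ≤ Lam s t r := by
  have F := ext_facts h
  unfold Lam
  apply intervalIntegral.integral_nonneg htr
  intro x hx
  exact div_nonneg (F.Spos x (ht.trans_le hx.1)).le (sq_nonneg _)

theorem lam_le {s s1 : ℝ → ℝ} (h : Ext 0 0 s s1) {r t : ℝ} (ht : 0 < t) (htr : t ≤ r) :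
    Lam s t r ≤ Sf s r * (1 / t - 1 / r) := by
  have F := ext_facts h
  unfold Lam
  have hne : ∀ x ∈ uIcc t r, x ≠ 0 := by
    intro x hx
    rw [uIcc_of_le htr] at hx
    have := ht.trans_le hx.1
    exact this.ne'
  have i1 : IntervalIntegrable (fun σ => Sf s r * (1 / σ ^ 2)) volume t r := by
    apply ContinuousOn.intervalIntegrable
    apply continuousOn_const.mul
    apply ContinuousOn.div continuousOn_const (by fun_prop)
    intro x hx
    exact pow_ne_zero 2 (hne x hx)
  have i2 : IntervalIntegrable (fun σ => Sf s σ / σ ^ 2) volume t r := by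
    apply ContinuousOn.intervalIntegrable
    apply ContinuousOn.div _ (by fun_prop)
    · intro x hx
      exact pow_ne_zero 2 (hne x hx)
    · apply F.Scont.mono
      intro x hx
      rw [uIcc_of_le htr] at hx
      exact (ht.trans_le hx.1).le
  have h4 := intervalIntegral.integral_Ioi_sub_Ioi (inv_sq ht).1 htr
  rw [(inv_sq ht).2, (inv_sq (ht.trans_le htr)).2] at h4
  rw [h4, ← intervalIntegral.integral_const_mul]
  apply intervalIntegral.integral_mono_on htr i2 i1
  intro x hx
  rw [mul_one_div]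
  apply div_le_div_of_nonneg_right _ (sq_nonneg _)
  exact F.Smono.monotoneOn (mem_Ici.2 (ht.trans_le hx.1).le) (mem_Ici.2 (ht.trans_le htr).le) hx.2

/-- facts on the kernel -/
theorem kfact : T_kf := by
  intro s s1 h
  have F := ext_facts h
  obtain ⟨j1, j2, j3, -, -, -, -, j8⟩ := ja s s1 h
  have hM := F.mpos
  have hup : ∀ r t, 0 < r → 0 < t → kf s r t ≤ Sf s r * Jf s t / Mf s := by
    intro r t hr ht
    rcases le_total r t with h1 | h1
    · rw [kf_le h1]
    · rw [kf_ge h ht h1]
      have h2 := lam_le h ht h1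
      have h3 := j8 t r ht h1
      linarith
  have hlo : ∀ r t, 0 < r → 0 < t → 0 ≤ kf s r t := by
    intro r t hr ht
    have hS := F.Spos r hr
    have hJ := (j3 t ht).1
    rcases le_total r t with h1 | h1
    · rw [kf_le h1]
      positivity
    · rw [kf_ge h ht h1]
      have hSM := F.Slt r hr.le
      have hJr := (j3 r hr).1
      rcases le_total 0 (Jf s t / Mf s - (1 / t - 1 / r)) with h2 | h2
      · have h3 := lam_nn h ht h1
        have h4 := j8 t r ht h1
        have h5 : 0 ≤ Sf s r * (Jf s t / Mf s - (1 / t - 1 / r)) := mul_nonneg hS.le h2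
        have h6 : Sf s r * (Jf s t / Mf s - (1 / t - 1 / r)) =
          Sf s r * Jf s t / Mf s - Sf s r * (1 / t - 1 / r) := by ring
        linarith
      · have h5 : 0 ≤ (Mf s - Sf s r) * -(Jf s t / Mf s - (1 / t - 1 / r)) :=
          mul_nonneg (by linarith) (by linarith)
        have h6 : (Mf s - Sf s r) * -(Jf s t / Mf s - (1 / t - 1 / r)) =
          Sf s r * Jf s t / Mf s - Sf s r * (1 / t - 1 / r) + Mf s * (1 / t - 1 / r)
            - Jf s t := by
          field_simp
          ring
        linarith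
  refine ⟨fun r t hr ht => ⟨hlo r t hr ht, hup r t hr ht⟩, ?_, ?_, ?_⟩
  · -- antitone
    intro t ht r hr r' hr' hrr
    have hr0 : 0 < r := hr
    have hr0' : 0 < r' := hr'
    have hS := F.Spos r hr0
    have hS' := F.Spos r' hr0'
    show kf s r' t / Sf s r' ≤ kf s r t / Sf s r
    rcases le_total r t with h1 | h1
    · rw [div_le_div_iff₀ hS' hS, kf_le h1]
      have h2 := hup r' t hr0' ht
      calc kf s r' t * Sf s r ≤ (Sf s r' * Jf s t / Mf s) * Sf s r :=
            mul_le_mul_of_nonneg_right h2 hS.le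
        _ = Sf s r * Jf s t / Mf s * Sf s r' := by ring
    · have e : ∀ x, t ≤ x → 0 < Sf s x → kf s x t / Sf s x =
          Jf s t / Mf s - (1 / t - 1 / x) + Lam s t x / Sf s x := by
        intro x hx hSx
        rw [kf_ge h ht hx]
        have h4 := j8 t x ht hx
        have h5 : Lam s t x = Mf s * (1 / t - 1 / x) - (Jf s t - Jf s x) := by linarith
        rw [h5]
        field_simp
        ring
      rw [e r h1 hS, e r' (h1.trans hrr) hS']
      have h6 := lam_le h hr0 hrr
      have h7 : Lam s t r' = Lam s t r + Lam s r r' := by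
        have a1 := j8 t r ht h1
        have a2 := j8 r r' hr0 hrr
        have a3 := j8 t r' ht (h1.trans hrr)
        linarith
      have h8 : Sf s r ≤ Sf s r' := F.Smono.monotoneOn (mem_Ici.2 hr0.le) (mem_Ici.2 hr0'.le) hrr
      have h9 := lam_nn h ht h1
      have h10 : Lam s t r / Sf s r' ≤ Lam s t r / Sf s r :=
        div_le_div_of_nonneg_left h9 hS h8
      have h11 : Lam s r r' / Sf s r' ≤ 1 / r - 1 / r' := by
        rw [div_le_iff₀ hS']
        linarith
      rw [h7, add_div]
      linarith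
  · -- derivative
    intro t r ht hr
    have hQ : ∀ r, 0 < r → HasDerivAt (fun r => Sf s r * Jf s t / Mf s
        - Sf s r * (1 / t - 1 / r) + Mf s * (1 / t - 1 / r) - Jf s t + Jf s r)
        (4 * π * s r ^ 2 * (Jf s t / Mf s - (1 / t - 1 / r))) r := by
      intro r hr
      have hi : HasDerivAt (fun r : ℝ => 1 / t - 1 / r) (1 / r ^ 2) r := by
        have := (hasDerivAt_inv hr.ne').const_sub (1 / t)
        simp only [← one_div] at this
        exact this.congr_deriv (by ring)
      have hS := F.Sder r hr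
      have := ((((hS.mul_const (Jf s t)).div_const (Mf s)).sub (hS.mul hi)).add
        (hi.const_mul (Mf s))).sub_const (Jf s t) |>.add (j2 r hr)
      refine this.congr_deriv ?_
      field_simp
      ring
    have hL : ∀ r, 0 < r → HasDerivAt (fun r => Sf s r * Jf s t / Mf s)
        (4 * π * s r ^ 2 * (Jf s t / Mf s)) r := by
      intro r hr
      have := ((F.Sder r hr).mul_const (Jf s t)).div_const (Mf s)
      exact this.congr_deriv (by ring)
    rcases lt_trichotomy t r with h1 | h1 | h1
    · rw [if_pos h1]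
      apply (hQ r hr).congr_of_eventuallyEq
      filter_upwards [Ioi_mem_nhds h1] with x hx
      exact kf_ge h ht (le_of_lt hx)
    · subst h1
      rw [if_neg (lt_irrefl _), sub_zero]
      have a1 : HasDerivWithinAt (fun r => kf s r t) (4 * π * s t ^ 2 * (Jf s t / Mf s))
          (Iic t) t := by
        apply (hL t ht).hasDerivWithinAt.congr
        · intro x hx
          exact kf_le hx
        · exact kf_le le_rfl
      have a2 : HasDerivWithinAt (fun r => kf s r t) (4 * π * s t ^ 2 * (Jf s t / Mf s))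
          (Ici t) t := by
        have b1 := (hQ t ht).hasDerivWithinAt (s := Ici t)
        have b2 : 4 * π * s t ^ 2 * (Jf s t / Mf s - (1 / t - 1 / t)) =
          4 * π * s t ^ 2 * (Jf s t / Mf s) := by ring
        rw [b2] at b1
        apply b1.congr
        · intro x hx
          exact kf_ge h ht hx
        · exact kf_ge h ht le_rfl
      have a3 := a1.union a2
      rwa [Iic_union_Ici, hasDerivWithinAt_univ] at a3
    · rw [if_neg (not_lt.mpr h1.le), sub_zero]
      apply (hL r hr).congr_of_eventuallyEq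
      filter_upwards [Iio_mem_nhds h1] with x hx
      exact kf_le (le_of_lt hx)
  · -- joint continuity
    have hJc : ContinuousOn (Jf s) (Ioi 0) := fun x hx => (j2 x hx).continuousAt.continuousWithinAt
    have hSc : ContinuousOn (Sf s) (Ioi 0) := F.Scont.mono Ioi_subset_Ici_self
    have m1 : MapsTo (fun p : ℝ × ℝ => p.1) (Ioi 0 ×ˢ Ioi 0) (Ioi 0) := fun p hp => hp.1
    have m2 : MapsTo (fun p : ℝ × ℝ => p.2) (Ioi 0 ×ˢ Ioi 0) (Ioi 0) := fun p hp => hp.2
    have m3 : MapsTo (fun p : ℝ × ℝ => min p.2 p.1) (Ioi 0 ×ˢ Ioi 0) (Ioi 0) :=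
      fun p hp => by
        have h1 : (0 : ℝ) < p.1 := hp.1
        have h2 : (0 : ℝ) < p.2 := hp.2
        exact lt_min h2 h1
    have c1 : ContinuousOn (fun p : ℝ × ℝ => Sf s p.1) (Ioi 0 ×ˢ Ioi 0) :=
      hSc.comp continuous_fst.continuousOn m1
    have c2 : ContinuousOn (fun p : ℝ × ℝ => Jf s p.2) (Ioi 0 ×ˢ Ioi 0) :=
      hJc.comp continuous_snd.continuousOn m2
    have c3 : ContinuousOn (fun p : ℝ × ℝ => Jf s p.1) (Ioi 0 ×ˢ Ioi 0) :=
      hJc.comp continuous_fst.continuousOn m1
    have c4 : ContinuousOn (fun p : ℝ × ℝ => Jf s (min p.2 p.1)) (Ioi 0 ×ˢ Ioi 0) :=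
      hJc.comp (continuous_snd.min continuous_fst).continuousOn m3
    have c5 : ContinuousOn (fun p : ℝ × ℝ => 1 / min p.2 p.1 - 1 / p.1) (Ioi 0 ×ˢ Ioi 0) := by
      apply ContinuousOn.sub
      · apply continuousOn_const.div (continuous_snd.min continuous_fst).continuousOn
        intro p hp
        exact (m3 hp).ne'
      · apply continuousOn_const.div continuous_fst.continuousOn
        intro p hp
        exact (m1 hp).ne'
    have hc : ContinuousOn (fun p : ℝ × ℝ => Sf s p.1 * Jf s p.2 / Mf s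
        - Sf s p.1 * (1 / min p.2 p.1 - 1 / p.1) + Mf s * (1 / min p.2 p.1 - 1 / p.1)
        - Jf s (min p.2 p.1) + Jf s p.1) (Ioi 0 ×ˢ Ioi 0) :=
      (((((c1.mul c2).div_const _).sub (c1.mul c5)).add (continuousOn_const.mul c5)).sub c4).add c3
    apply hc.congr
    intro p hp
    have hp1 : 0 < p.1 := hp.1
    have hp2 : 0 < p.2 := hp.2
    show kf s p.1 p.2 = Sf s p.1 * Jf s p.2 / Mf s
        - Sf s p.1 * (1 / min p.2 p.1 - 1 / p.1) + Mf s * (1 / min p.2 p.1 - 1 / p.1)
        - Jf s (min p.2 p.1) + Jf s p.1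
    rcases le_total p.2 p.1 with h1 | h1
    · rw [kf_ge h hp2 h1, min_eq_left h1]
    · rw [kf_le h1, min_eq_right h1]
      ring

end Pool.Agent.H62.HN
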