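import Pool.Agent.H99.HN.Targets

/-!
# Legendre and Wirtinger inequalities
-/

namespace Pool.Agent.H62.HN

open Pool.Agent.H99.HM Pool.Agent.H99.HN
open MeasureTheory Set Filter Topology Real

/-- an integrable function bounded from below by a derivative of a function vanishing at both ends
has nonnegative integral -/
theorem key {g g' φ : ℝ → ℝ} {K : ℝ} (hd : ∀ z ∈ Ioo (-1 : ℝ) 1, HasDerivAt g (g' z) z)
    (hb : ∀ z ∈ Ioo (-1 : ℝ) 1, |g z| ≤ K * (1 - z ^ 2)) (hi : IntegrableOn φ (Icc (-1) 1))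
    (hle : ∀ z ∈ Ioo (-1 : ℝ) 1, g' z ≤ φ z) : 0 ≤ ∫ z in (-1 : ℝ)..1, φ z := by
  classical
  set G : ℝ → ℝ := fun z => if z ∈ Ioo (-1 : ℝ) 1 then g z else 0 with hG
  have hGe : ∀ z ∈ Ioo (-1 : ℝ) 1, G =ᶠ[𝓝 z] g := by
    intro z hz
    filter_upwards [isOpen_Ioo.mem_nhds hz] with w hw
    simp only [hG, if_pos hw]
  have hG0 : ∀ z, z ∉ Ioo (-1 : ℝ) 1 → G z = 0 := by
    intro z hz
    simp only [hG, if_neg hz]
  have hK : 0 ≤ K := by
    have := hb 0 ⟨by norm_num, by norm_num⟩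
    have h2 := abs_nonneg (g 0)
    norm_num at this
    linarith
  have hGb : ∀ z ∈ Icc (-1 : ℝ) 1, ‖G z‖ ≤ K * (1 - z ^ 2) := by
    intro z hz
    by_cases h : z ∈ Ioo (-1 : ℝ) 1
    · rw [Real.norm_eq_abs]
      simp only [hG, if_pos h]
      exact hb z h
    · rw [hG0 z h, norm_zero]
      apply mul_nonneg hK
      nlinarith [hz.1, hz.2]
  have hcont : ContinuousOn G (Icc (-1) 1) := by
    intro z hz
    by_cases h : z ∈ Ioo (-1 : ℝ) 1
    · exact ((hd z h).continuousAt.congr (hGe z h).symm).continuousWithinAt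
    · have hz2 : z ^ 2 = 1 := by
        rcases eq_or_lt_of_le hz.1 with h1 | h1
        · rw [← h1]; norm_num
        · rcases eq_or_lt_of_le hz.2 with h2 | h2
          · rw [h2]; norm_num
          · exact absurd ⟨h1, h2⟩ h
      have hGz : G z = 0 := hG0 z h
      rw [ContinuousWithinAt, hGz]
      apply squeeze_zero_norm' (a := fun w => K * (1 - w ^ 2))
      · filter_upwards [self_mem_nhdsWithin] with w hw using hGb w hw
      · have : ContinuousAt (fun w : ℝ => K * (1 - w ^ 2)) z := by fun_prop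
        have h2 := this.tendsto
        simp only [hz2, sub_self, mul_zero] at h2
        exact h2.mono_left nhdsWithin_le_nhds
  have h := intervalIntegral.sub_le_integral_of_hasDeriv_right_of_le (g := G) (g' := g') (φ := φ)
    (a := -1) (b := 1) (by norm_num) hcont
    (fun z hz => ((hd z hz).congr_of_eventuallyEq (hGe z hz)).hasDerivWithinAt) hi hle
  rwa [hG0 1 (by simp), hG0 (-1) (by simp), sub_zero] at h

/-- bounded continuous functions on the open interval are integrable -/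
theorem intb {f : ℝ → ℝ} {C : ℝ} (hc : ContinuousOn f (Ioo (-1) 1))
    (hb : ∀ z ∈ Ioo (-1 : ℝ) 1, |f z| ≤ C) : IntegrableOn f (Icc (-1) 1) := by
  rw [integrableOn_Icc_iff_integrableOn_Ioo]
  refine ⟨hc.aestronglyMeasurable measurableSet_Ioo, ?_⟩
  apply HasFiniteIntegral.restrict_of_bounded C (by simp)
  filter_upwards [self_mem_ae_restrict measurableSet_Ioo] with z hz using hb z hz

theorem intb' {f : ℝ → ℝ} (h : IntegrableOn f (Icc (-1) 1)) :
    IntervalIntegrable f volume (-1) 1 := by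
  rw [intervalIntegrable_iff_integrableOn_Icc_of_le (by norm_num)]
  exact h

/-- gap for functions of angular momentum at least one -/
theorem leg2 : T_leg2 := by
  intro f f1 C hd hc1 hb1 hb0
  have hfc : ContinuousOn f (Ioo (-1) 1) := fun z hz => (hd z hz).continuousAt.continuousWithinAt
  have hp : ∀ z ∈ Ioo (-1 : ℝ) 1, 0 < 1 - z ^ 2 := fun z hz => by nlinarith [hz.1, hz.2]
  have i1 : IntegrableOn (fun z => (1 - z ^ 2) * f1 z ^ 2) (Icc (-1) 1) := by
    apply intb (C := C)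
    · fun_prop
    · intro z hz
      rw [abs_of_nonneg (mul_nonneg (hp z hz).le (sq_nonneg _))]
      exact hb1 z hz
  have i2 : IntegrableOn (fun z => f z ^ 2 / (1 - z ^ 2)) (Icc (-1) 1) := by
    apply intb (C := C)
    · apply ContinuousOn.div (hfc.pow 2) (by fun_prop)
      intro z hz
      exact (hp z hz).ne'
    · intro z hz
      rw [abs_of_nonneg (div_nonneg (sq_nonneg _) (hp z hz).le), div_le_iff₀ (hp z hz)]
      exact hb0 z hz
  have i3 : IntegrableOn (fun z => f z ^ 2) (Icc (-1) 1) := by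
    apply intb (C := C)
    · fun_prop
    intro z hz
    have h1 := hb0 z hz
    have h2 := hp z hz
    have h3 : 0 ≤ C := by
      by_contra h
      push Not at h
      nlinarith [sq_nonneg (f z)]
    show |f z ^ 2| ≤ C
    rw [abs_of_nonneg (sq_nonneg _)]
    nlinarith [sq_nonneg z]
  have hk := key (g := fun z => -(z * f z ^ 2)) (g' := fun z => -(f z ^ 2 + z * (2 * f z * f1 z)))
    (φ := fun z => (1 - z ^ 2) * f1 z ^ 2 + f z ^ 2 / (1 - z ^ 2) - 2 * f z ^ 2) (K := C) ?_ ?_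
    ((i1.add i2).sub (i3.const_mul 2)) ?_
  · rw [intervalIntegral.integral_sub ((intb' i1).add (intb' i2)) ((intb' i3).const_mul 2),
      intervalIntegral.integral_add (intb' i1) (intb' i2),
      intervalIntegral.integral_const_mul] at hk
    linarith
  · intro z hz
    have h := ((hasDerivAt_id' z).fun_mul ((hd z hz).fun_pow 2)).fun_neg
    exact h.congr_deriv (by norm_num)
  · intro z hz
    rw [abs_neg, abs_mul, abs_of_nonneg (sq_nonneg (f z))]
    have h1 : |z| ≤ 1 := abs_le.mpr ⟨hz.1.le, hz.2.le⟩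
    calc |z| * f z ^ 2 ≤ 1 * f z ^ 2 := mul_le_mul_of_nonneg_right h1 (sq_nonneg _)
      _ ≤ C * (1 - z ^ 2) := by rw [one_mul]; exact hb0 z hz
  · intro z hz
    have h2 := hp z hz
    have h3 : (1 - z ^ 2) * f1 z ^ 2 + f z ^ 2 / (1 - z ^ 2) - 2 * f z ^ 2
        - -(f z ^ 2 + z * (2 * f z * f1 z)) = (1 - z ^ 2) * (f1 z + z * f z / (1 - z ^ 2)) ^ 2 := by
      field_simp
      ring
    have h4 : 0 ≤ (1 - z ^ 2) * (f1 z + z * f z / (1 - z ^ 2)) ^ 2 :=
      mul_nonneg h2.le (sq_nonneg _)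
    show -(f z ^ 2 + z * (2 * f z * f1 z)) ≤
      (1 - z ^ 2) * f1 z ^ 2 + f z ^ 2 / (1 - z ^ 2) - 2 * f z ^ 2
    linarith

/-- gap for zonal functions -/
theorem leg1 : T_leg1 := by
  intro f f1 C hc0 hd hc1 hb1 hz0
  have hfc : ContinuousOn f (Ioo (-1) 1) := hc0.mono Ioo_subset_Icc_self
  have hp : ∀ z ∈ Ioo (-1 : ℝ) 1, 0 < 1 - z ^ 2 := fun z hz => by nlinarith [hz.1, hz.2]
  obtain ⟨K, hK⟩ := isCompact_Icc.exists_bound_of_continuousOn hc0
  have hK0 : 0 ≤ K := (norm_nonneg _).trans (hK 0 ⟨by norm_num, by norm_num⟩)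
  have hfi : ∀ a b : ℝ, a ∈ Icc (-1 : ℝ) 1 → b ∈ Icc (-1 : ℝ) 1 →
      IntervalIntegrable f volume a b := by
    intro a b ha hb
    apply ContinuousOn.intervalIntegrable
    exact hc0.mono (fun x hx => ⟨le_trans (le_min ha.1 hb.1) hx.1, hx.2.trans (max_le ha.2 hb.2)⟩)
  have hm : (-1 : ℝ) ∈ Icc (-1 : ℝ) 1 := ⟨le_refl _, by norm_num⟩
  have hm1 : (1 : ℝ) ∈ Icc (-1 : ℝ) 1 := ⟨by norm_num, le_refl _⟩
  set F : ℝ → ℝ := fun z => ∫ t in (-1 : ℝ)..z, f t with hF
  have hFd : ∀ z ∈ Ioo (-1 : ℝ) 1, HasDerivAt F (f z) z := by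
    intro z hz
    apply intervalIntegral.integral_hasDerivAt_right (hfi _ _ hm (Ioo_subset_Icc_self hz))
    · exact hfc.stronglyMeasurableAtFilter isOpen_Ioo z hz
    · exact hfc.continuousAt (isOpen_Ioo.mem_nhds hz)
  have hFb : ∀ z ∈ Ioo (-1 : ℝ) 1, |F z| ≤ K * (1 - z ^ 2) := by
    intro z hz
    have h1 : |F z| ≤ K * (1 + z) := by
      have h := intervalIntegral.norm_integral_le_of_norm_le_const (f := f) (a := -1) (b := z)
        (C := K) (fun x hx => hK x (by
          rw [uIoc_of_le hz.1.le] at hx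
          exact ⟨hx.1.le, hx.2.trans hz.2.le⟩))
      rw [Real.norm_eq_abs] at h
      rw [abs_of_nonneg (by linarith [hz.1] : (0 : ℝ) ≤ z - -1)] at h
      calc |F z| ≤ K * (z - -1) := h
        _ = K * (1 + z) := by ring
    have h2 : |F z| ≤ K * (1 - z) := by
      have h := intervalIntegral.norm_integral_le_of_norm_le_const (f := f) (a := z) (b := 1)
        (C := K) (fun x hx => hK x (by
          rw [uIoc_of_le hz.2.le] at hx
          exact ⟨hz.1.le.trans hx.1.le, hx.2⟩))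
      rw [Real.norm_eq_abs] at h
      rw [abs_of_nonneg (by linarith [hz.2] : (0 : ℝ) ≤ 1 - z)] at h
      have h3 := intervalIntegral.integral_add_adjacent_intervals
        (hfi _ _ hm (Ioo_subset_Icc_self hz)) (hfi _ _ (Ioo_subset_Icc_self hz) hm1)
      rw [hz0] at h3
      have h4 : F z = - ∫ t in z..1, f t := by
        have : F z = ∫ t in (-1 : ℝ)..z, f t := rfl
        linarith
      rw [h4, abs_neg]
      exact h
    rcases le_total 0 z with h | h
    · calc |F z| ≤ K * (1 - z) := h2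
        _ ≤ K * (1 - z ^ 2) := by
          apply mul_le_mul_of_nonneg_left _ hK0
          nlinarith [hz.2]
    · calc |F z| ≤ K * (1 + z) := h1
        _ ≤ K * (1 - z ^ 2) := by
          apply mul_le_mul_of_nonneg_left _ hK0
          nlinarith [hz.1]
  have i1 : IntegrableOn (fun z => (1 - z ^ 2) * f1 z ^ 2) (Icc (-1) 1) := by
    apply intb (C := C)
    · fun_prop
    · intro z hz
      rw [abs_of_nonneg (mul_nonneg (hp z hz).le (sq_nonneg _))]
      exact hb1 z hz
  have i3 : IntegrableOn (fun z => f z ^ 2) (Icc (-1) 1) := (hc0.pow 2).integrableOn_Icc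
  have hk := key (g := fun z => -(4 * z * F z ^ 2 / (1 - z ^ 2) + 4 * F z * f z))
    (g' := fun z => -(((4 * F z ^ 2 + 4 * z * (2 * F z * f z)) * (1 - z ^ 2)
      - 4 * z * F z ^ 2 * (-(2 * z))) / (1 - z ^ 2) ^ 2 + (4 * f z * f z + 4 * F z * f1 z)))
    (φ := fun z => (1 - z ^ 2) * f1 z ^ 2 - 2 * f z ^ 2) (K := 4 * K ^ 2 + 4 * K * K) ?_ ?_
    (i1.sub (i3.const_mul 2)) ?_
  · rw [intervalIntegral.integral_sub (intb' i1) ((intb' i3).const_mul 2),
      intervalIntegral.integral_const_mul] at hk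
    linarith
  · intro z hz
    have h2 := (hp z hz).ne'
    have hF2 : HasDerivAt (fun w => F w ^ 2) (2 * F z * f z) z := by
      have := (hFd z hz).fun_pow 2
      simpa using this
    have h4z : HasDerivAt (fun w : ℝ => 4 * w) 4 z := by
      simpa using (hasDerivAt_id z).const_mul 4
    have hpd : HasDerivAt (fun w : ℝ => 1 - w ^ 2) (-(2 * z)) z := by
      simpa using (hasDerivAt_pow 2 z).const_sub 1
    have hq := (h4z.mul hF2).div hpd h2
    have hr := ((hFd z hz).const_mul 4).mul (hd z hz)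
    exact (hq.add hr).neg
  · intro z hz
    have h2 := hp z hz
    have hFz := hFb z hz
    have hfz : |f z| ≤ K := hK z (Ioo_subset_Icc_self hz)
    have hp1 : 1 - z ^ 2 ≤ 1 := by nlinarith [sq_nonneg z]
    have hz1 : |z| ≤ 1 := abs_le.mpr ⟨hz.1.le, hz.2.le⟩
    rw [abs_neg]
    calc |4 * z * F z ^ 2 / (1 - z ^ 2) + 4 * F z * f z|
        ≤ |4 * z * F z ^ 2 / (1 - z ^ 2)| + |4 * F z * f z| := abs_add_le _ _
      _ ≤ 4 * K ^ 2 * (1 - z ^ 2) + 4 * K * K * (1 - z ^ 2) := by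
        apply add_le_add
        · rw [abs_div, abs_of_pos h2, div_le_iff₀ h2, abs_mul, abs_mul,
            abs_of_nonneg (by norm_num : (0 : ℝ) ≤ 4), abs_of_nonneg (sq_nonneg (F z))]
          have h6 : F z ^ 2 ≤ (K * (1 - z ^ 2)) ^ 2 := by
            rw [← sq_abs (F z)]
            exact pow_le_pow_left₀ (abs_nonneg _) hFz 2
          calc 4 * |z| * F z ^ 2 ≤ 4 * 1 * (K * (1 - z ^ 2)) ^ 2 := by
                apply mul_le_mul (by linarith) h6 (sq_nonneg _) (by norm_num)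
            _ = 4 * K ^ 2 * (1 - z ^ 2) * (1 - z ^ 2) := by ring
        · rw [abs_mul, abs_mul, abs_of_nonneg (by norm_num : (0 : ℝ) ≤ 4)]
          calc 4 * |F z| * |f z| ≤ 4 * (K * (1 - z ^ 2)) * K := by
                apply mul_le_mul (by linarith) hfz (abs_nonneg _)
                have := mul_nonneg hK0 h2.le
                linarith
            _ = 4 * K * K * (1 - z ^ 2) := by ring
      _ = (4 * K ^ 2 + 4 * K * K) * (1 - z ^ 2) := by ring
  · intro z hz
    have h2 := hp z hz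
    have h3 : (1 - z ^ 2) * f1 z ^ 2 - 2 * f z ^ 2
        - -(((4 * F z ^ 2 + 4 * z * (2 * F z * f z)) * (1 - z ^ 2)
      - 4 * z * F z ^ 2 * (-(2 * z))) / (1 - z ^ 2) ^ 2 + (4 * f z * f z + 4 * F z * f1 z)) =
        (1 - z ^ 2) * (f1 z + 2 * F z / (1 - z ^ 2)) ^ 2
          + 2 * (f z + 2 * z * F z / (1 - z ^ 2)) ^ 2 := by
      field_simp
      ring
    have h4 : 0 ≤ (1 - z ^ 2) * (f1 z + 2 * F z / (1 - z ^ 2)) ^ 2 :=
      mul_nonneg h2.le (sq_nonneg _)
    have h5 : 0 ≤ 2 * (f z + 2 * z * F z / (1 - z ^ 2)) ^ 2 := by positivity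
    show -(((4 * F z ^ 2 + 4 * z * (2 * F z * f z)) * (1 - z ^ 2)
      - 4 * z * F z ^ 2 * (-(2 * z))) / (1 - z ^ 2) ^ 2 + (4 * f z * f z + 4 * F z * f1 z)) ≤
      (1 - z ^ 2) * f1 z ^ 2 - 2 * f z ^ 2
    linarith

end Pool.Agent.H62.HN
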