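import Pool.Agent.H99.HN.Targets

/-!
# First contact point of the multiplier
-/

namespace Pool.Agent.H62.HN

open Pool.Agent.H99.HM Pool.Agent.H99.HN
open MeasureTheory Set Filter Topology Real

/-- first point where `r h'/h` reaches `3` -/
theorem up : Pool.Agent.H99.HN.T_up := by
  intro s s1 hE ν h h1 A η H hneg
  push Not at hneg
  set D : ℝ → ℝ := fun r => r * h1 r - 3 * h r with hD
  have hDc : ContinuousOn D (Ici 0) :=
    (continuousOn_id.mul H.cont1).sub (continuousOn_const.mul H.cont)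
  have hD0 : D 0 < 0 := by
    simp only [hD, H.h0, H.h10]
    norm_num
  set S : Set ℝ := {r | 0 < r ∧ 0 < D r} with hS
  have hne : S.Nonempty := by
    obtain ⟨r, hr, hr2⟩ := hneg
    exact ⟨r, hr, by simp only [hD]; linarith⟩
  have hbdd : BddBelow S := ⟨0, fun r hr => hr.1.le⟩
  set r1 := sInf S with hr1
  have hle : ∀ r, 0 < r → r < r1 → D r ≤ 0 := by
    intro r hr hlt
    by_contra hc
    push Not at hc
    have := csInf_le hbdd (show r ∈ S from ⟨hr, hc⟩)
    linarith
  have hr10 : 0 ≤ r1 := le_csInf hne (fun r hr => hr.1.le)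
  -- `r1` is positive
  have hpos : 0 < r1 := by
    rcases eq_or_lt_of_le hr10 with h0 | h0
    · exfalso
      have h2 := (hDc 0 (by simp)).eventually (gt_mem_nhds hD0)
      rw [eventually_nhdsWithin_iff, Metric.eventually_nhds_iff] at h2
      obtain ⟨ε, hε, hb⟩ := h2
      obtain ⟨r, hr, hrlt⟩ := exists_lt_of_csInf_lt hne (show sInf S < ε by rw [← hr1, ← h0]; exact hε)
      have h3 := hb (y := r) (by rw [Real.dist_eq, sub_zero, abs_of_pos hr.1]; exact hrlt)
        (mem_Ici.2 hr.1.le)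
      linarith [hr.2]
    · exact h0
  have hcat : ContinuousAt D r1 := hDc.continuousAt (Ici_mem_nhds hpos)
  -- `D r1 ≤ 0`
  have hDle : D r1 ≤ 0 := by
    by_contra hc
    push Not at hc
    have h2 := hcat.eventually (lt_mem_nhds hc)
    rw [Metric.eventually_nhds_iff] at h2
    obtain ⟨ε, hε, hb⟩ := h2
    have hm : 0 < min (ε / 2) (r1 / 2) := lt_min (by linarith) (by linarith)
    have hm1 := min_le_left (ε / 2) (r1 / 2)
    have hm2 := min_le_right (ε / 2) (r1 / 2)
    have h3 := hb (y := r1 - min (ε / 2) (r1 / 2)) (by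
      rw [Real.dist_eq, abs_lt]
      constructor <;> linarith)
    have h4 := hle (r1 - min (ε / 2) (r1 / 2)) (by linarith) (by linarith)
    linarith
  have hDge : 0 ≤ D r1 := by
    by_contra hc
    push Not at hc
    have h2 := hcat.eventually (gt_mem_nhds hc)
    rw [Metric.eventually_nhds_iff] at h2
    obtain ⟨ε, hε, hb⟩ := h2
    obtain ⟨r, hr, hrlt⟩ := exists_lt_of_csInf_lt hne (show sInf S < r1 + ε by linarith)
    have h5 : r1 ≤ r := csInf_le hbdd hr
    have h3 := hb (y := r) (by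
      rw [Real.dist_eq, abs_lt]
      constructor <;> linarith)
    linarith [hr.2]
  have hDz : D r1 = 0 := le_antisymm hDle hDge
  -- derivative
  have hsp := hE.pos r1 hpos
  have hh1 : HasDerivAt h1 (-2 * η r1 - h1 r1 * (2 * s1 r1 / s r1)) r1 := by
    have hs2 : HasDerivAt (fun r => 4 * π * s r ^ 2) (4 * π * (2 * s r1 * s1 r1)) r1 := by
      have := ((hE.der r1 hpos).fun_pow 2).const_mul (4 * π)
      simpa using this
    have hne2 : 4 * π * s r1 ^ 2 ≠ 0 := by positivity
    have hq := ((H.Ader r1 hpos).const_mul 2).div hs2 hne2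
    have heq : h1 =ᶠ[𝓝 r1] fun r => 2 * A r / (4 * π * s r ^ 2) := by
      filter_upwards [Ioi_mem_nhds hpos] with r hr
      exact H.eq1 r hr
    have hq2 := hq.congr_of_eventuallyEq heq
    refine hq2.congr_deriv ?_
    rw [H.eq1 r1 hpos]
    field_simp
  have hDd : HasDerivAt D (h1 r1 + r1 * (-2 * η r1 - h1 r1 * (2 * s1 r1 / s r1)) - 3 * h1 r1)
      r1 := by
    have := ((hasDerivAt_id' r1).fun_mul hh1).sub ((H.der r1 hpos).const_mul 3)
    exact this.congr_deriv (by ring)
  have hge : 0 ≤ h1 r1 + r1 * (-2 * η r1 - h1 r1 * (2 * s1 r1 / s r1)) - 3 * h1 r1 := by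
    by_contra hc
    push Not at hc
    have h2 := hDd.tendsto_slope.eventually (gt_mem_nhds hc)
    rw [eventually_nhdsWithin_iff, Metric.eventually_nhds_iff] at h2
    obtain ⟨ε, hε, hb⟩ := h2
    obtain ⟨r, hr, hrlt⟩ := exists_lt_of_csInf_lt hne (show sInf S < r1 + ε by linarith)
    have h5 : r1 ≤ r := csInf_le hbdd hr
    have h6 : r ≠ r1 := by
      rintro rfl
      linarith [hr.2]
    have h7 : r1 < r := lt_of_le_of_ne h5 (Ne.symm h6)
    have h3 := hb (y := r) (by
      rw [Real.dist_eq, abs_lt]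
      constructor <;> linarith) h6
    rw [slope_def_field, hDz, sub_zero, div_lt_iff₀ (by linarith), zero_mul] at h3
    linarith [hr.2]
  have hDz' : r1 * h1 r1 - 3 * h r1 = 0 := hDz
  have he : r1 * h1 r1 = 3 * h r1 := by linarith
  refine ⟨r1, hpos, he, ?_, ?_⟩
  · intro r hr hrr
    rcases eq_or_lt_of_le hrr with h2 | h2
    · rw [h2, he]
    · have h3 : r * h1 r - 3 * h r ≤ 0 := hle r hr h2
      linarith
  · have h8 := mul_nonneg hpos.le hge
    have h9 : r1 * (h1 r1 + r1 * (-2 * η r1 - h1 r1 * (2 * s1 r1 / s r1)) - 3 * h1 r1) =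
        -2 * (r1 * h1 r1) - 2 * r1 ^ 2 * η r1 - 2 * r1 * s1 r1 / s r1 * (r1 * h1 r1) := by
      field_simp
      ring
    rw [h9, he] at h8
    have h10 : 3 * (-2 - 2 * r1 * s1 r1 / s r1) * h r1 =
        -2 * (3 * h r1) - 2 * r1 * s1 r1 / s r1 * (3 * h r1) := by ring
    rw [h10]
    linarith

end Pool.Agent.H62.HN
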